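import Mathlib

/-!
# PROJECT HS, part (E), line case: five or more square points on a line

`r₀, r₁` are integral matrices and `g` is the binary quadratic form `det (a r₀ + b r₁)`. It has nine square values
`g(n_i) = m_i²` of size about `K²` at fixed points `n_i` of size `L`. If `g` is not a square (`disc g ≠ 0`) then the
pairs `(x, y)` of geodesics joined by `r₀, r₁` form a set of measure at most `C L^C K^(-4-1/24)`.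
Statements with complete proofs; arithmetic part (only Mathlib). `K`, `L` real, at least `1`; `C` a natural number.
-/

set_option autoImplicit false

namespace Pool.Agent.HS.E

/-- integral matrices -/
abbrev Mat : Type := Matrix (Fin 2) (Fin 2) ℤ

/-- the value of the binary quadratic form `g` at `n` -/
def qv (g : Fin 3 → ℚ) (n : Fin 2 → ℤ) : ℚ :=
  g 0 * (n 0 : ℚ) ^ 2 + g 1 * ((n 0 : ℚ) * (n 1 : ℚ)) + g 2 * (n 1 : ℚ) ^ 2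

/-- the discriminant -/
def dq (g : Fin 3 → ℚ) : ℚ := g 1 ^ 2 - 4 * g 0 * g 2

/-- nine pairwise independent points of size `L`, the first two are the unit vectors -/
structure Pts (L : ℝ) (n : Fin 9 → Fin 2 → ℤ) : Prop where
  n0 : n 0 = ![1, 0]
  n1 : n 1 = ![0, 1]
  ind : ∀ i j, i ≠ j → n i 0 * n j 1 ≠ n i 1 * n j 0
  le : ∀ i j, |((n i j : ℤ) : ℝ)| ≤ L

/-- the integral linear form of the slab: `σ₀ |a| m₀ + σ₁ |b| m₁ + σ₂ m₂`, `(a,b) = n₂` -/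
def lin (σ : Fin 3 → ℤ) (n : Fin 9 → Fin 2 → ℤ) (m : Fin 9 → ℤ) : ℤ :=
  σ 0 * |n 2 0| * m 0 + σ 1 * |n 2 1| * m 1 + σ 2 * m 2

/-- `m` is a vector of square roots of the values of `g`, of size `K` up to `L` -/
def Val (K L : ℝ) (n : Fin 9 → Fin 2 → ℤ) (g : Fin 3 → ℚ) (m : Fin 9 → ℤ) : Prop :=
  ∀ i, K / L ≤ ((m i : ℤ) : ℝ) ∧ ((m i : ℤ) : ℝ) ≤ K * L ∧ ((m i : ℤ) : ℚ) ^ 2 = qv g (n i)

/-- **Slab** THE SLAB. Proof. Write `(a,b) = n 2`; `a, b ≠ 0` (independence from the unit vectors), `α = |a| m₀`, `β = |b| m₁`,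
`γ = m₂`, integers, `K/L ≤ α, β, γ ≤ K L²`. `g 0 = m₀²`, `g 2 = m₁²`, `g 1 a b = γ² - α² - β²`, so (`ring`)
`(α+β+γ)(-α+β+γ)(α-β+γ)(α+β-γ) = -(γ²-α²-β²)² + 4α²β² = -(dq g)(a b)²` (HERON). Not zero. Call the last three factors
`f₁, f₂, f₃`: two of them have sum `2γ, 2β` or `2α`, at least `2K/L`, so at most one of the `f_i` is `< K/L`
in absolute value; `|f_i| ≤ 3KL²`. Let `l` be the `f_i` with the smallest `|f_i|` (the sign vectors are `(-1,1,1)`, `(1,-1,1)`,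
`(1,1,-1)`): the two others are `≥ K/L` in absolute value (if `|f_j| < K/L` and `|l| ≤ |f_j|` then `|l + f_j| < 2K/L`), and
`K/L ≤ α+β+γ ≤ 3KL²`. So `|dq g| (ab)² = |l| * (three factors in [K/L, 3KL²])`, `1 ≤ (ab)² ≤ L⁴`. `C = 27`-ish. -/
def S_Slab : Prop := ∃ C : ℕ, 1 ≤ C ∧ ∀ (K L : ℝ) (n : Fin 9 → Fin 2 → ℤ) (g : Fin 3 → ℚ) (m : Fin 9 → ℤ),
  1 ≤ K → 1 ≤ L → Pts L n → Val K L n g m → dq g ≠ 0 →
  ∃ σ : Fin 3 → ℤ, (∀ j, σ j = 1 ∨ σ j = -1) ∧ lin σ n m ≠ 0 ∧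
    |((lin σ n m : ℤ) : ℝ)| * K ^ 3 ≤ C * L ^ C * |((dq g : ℚ) : ℝ)| ∧
    |((dq g : ℚ) : ℝ)| ≤ C * L ^ C * (K ^ 3 * |((lin σ n m : ℤ) : ℝ)|)

/-- **Prim** PRIMITIVE VECTORS IN A SLAB. Proof: `Pool.Agent.HS.Cl.cellP` (HS/Cl5.lean) with `s = 1` (`D = 3`), `k = 9`,
`R = K^(2/5)` (`R² ≤ K`), `b = ![0, 1, 2]`, `c = ![σ 0 * |n 2 0|, σ 1 * |n 2 1|, σ 2]` (so `ell b c m = lin σ n m`, `c 2 ≠ 0`), `La = min Λ (3 K L²)` (the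
hypothesis `|lin| ≤ La` holds: `|lin σ n m| ≤ 3KL²` always), `L' = 2 L³` instead of `L`, and with `(a,b) = n 2`, `u = n i 0`, `v = n i 1`:
`al i = ![u² - u v a / b, v² - u v b / a, u v / (a b)]`: indeed `m_i² = qv g (n i) = u² m₀² + u v g₁ + v² m₁²`, `g₁ = (m₂² - a² m₀² - b² m₁²)/(ab)`;
`|al| ≤ 2L³` as `|a|, |b| ≥ 1`.
SIDON hypothesis of `cellP`: let `m, m', l, l' ∈ P`, `m ≠ m'`, `m' i - m i = l' i - l i`; the forms `G = X₀² g₀ + X₀ X₁ g₁ + X₁² g₂` in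
`MvPolynomial (Fin 2) ℚ`; `sidonBinary` (HS/Binary.lean, degree 2, nine points): `Ga = Gb` (then `m = l`: positive square roots of the same
values) or `Ga = Ga'` (then `m = m'`, excluded) or `Ga * Ga'` is a square: `sqClassTwo` (HS/SqClass.lean, at the point `n 0`, value `m₀² ≠ 0`): either
`Ga' = t² Ga`, so `m' = |t| m`, and two primitive vectors with positive entries that are proportional are equal (write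
`|t| = p/q` in lowest terms: `q m' = p m`, so `p` divides all `m' i` and `q` divides all `m i`: `p = q = 1`), excluded; or `Ga` is the square of a
linear form, then `dq g = 0` (compare coefficients), excluded.
NUMBERS. `cells = (K/R)² (1 + La/R)`, `vs = R² min(R,La) R (1 + La R/K)`. If `#P ≤ C L^C cells`: `(K/R)² = K^(6/5) ≤ K^(7/5) La^(1/2)` and
`(K/R)² La/R = K^(4/5) La ≤ K^(7/5) La^(1/2) * (3L²)` because `La^(1/2) ≤ (3KL²)^(1/2) ≤ K^(3/5) 3 L²`. If `#P² ≤ C L^C cells vs`: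
`(1 + La/R) min(R,La) ≤ 2 La`, so `cells vs ≤ 2 K² R La (1 + La R/K) = 2 K^(12/5) La + 2 K^(9/5) La² ≤ C L^C K^(14/5) La`. (If `La < 1` use `La = 1`.) -/
def S_Prim : Prop := ∃ C : ℕ, 1 ≤ C ∧ ∀ (K L Λ : ℝ) (n : Fin 9 → Fin 2 → ℤ) (σ : Fin 3 → ℤ) (P : Finset (Fin 9 → ℤ)),
  1 ≤ K → 1 ≤ L → 1 ≤ Λ → Pts L n → (∀ j, σ j = 1 ∨ σ j = -1) →
  (∀ m ∈ P, ∀ d : ℕ, (∀ i, (d : ℤ) ∣ m i) → d = 1) →
  (∀ m ∈ P, ∃ g : Fin 3 → ℚ, dq g ≠ 0 ∧ Val K L n g m) →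
  (∀ m ∈ P, |((lin σ n m : ℤ) : ℝ)| ≤ Λ) →
  (P.card : ℝ) ≤ C * L ^ C * (K ^ (7 / 5 : ℝ) * Λ ^ (1 / 2 : ℝ))

/-- **Sum** ALL FORMS, WEIGHT `1/√|disc|`. Proof (given `S_Slab`, `S_Prim`). Choose `m = m(g)` for `g ∈ GG`; `g` is determined by `m₀, m₁, m₂`, so
`g ↦ m` is injective. Let `τ = gcd` of the `m i` (`τ ≥ 1`, `τ ≤ KL`), `m = τ m'`, `m'` primitive, `m'` belongs to `g' = g/τ²` (rational), `σ` from
`S_Slab` for `(K, L, g, m)`, `l = |lin σ n m| = τ l'`, `l' = |lin σ n m'| ≥ 1` an integer, `l' ≤ 3KL²`, and `j` with `2^j ≤ l' < 2^(j+1)`. For fixed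
`(τ, σ, j)` the map `g ↦ m'` is injective, and `S_Prim` with `K₁ = max (K/τ) 1`, `L₁ = L²`, `Λ = 2^(j+1)` gives (`K₁/L₁ ≤ m' i ≤ K₁ L₁`: if `K/τ ≥ 1` clear; if
`K/τ < 1` then `K₁ = 1`, `1/L² ≤ 1 ≤ m' i ≤ (K/τ) L ≤ L²`), as `K₁ ≤ (K/τ) L` (`τ ≤ KL`),
number `≤ C L^C (K/τ)^(7/5) 2^((j+1)/2)`. By `S_Slab` `|disc g| ≥ l K³/(C L^C) ≥ τ 2^j K³/(C L^C)`, so each term is `≤ C L^C τ^(-1/2) 2^(-j/2) K^(-3/2)`. The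
product is `≤ C L^C K^(-1/10) τ^(-19/10)`. Sum over `τ ≥ 1` (converges), over the eight `σ`, and over `j ≤ log₂(3KL²)`, i.e. `≤ C (1 + log K) L` values:
`K^(-1/10) (1 + log K) ≤ C K^(-1/12)`. (A version without dyadic pieces is welcome.) -/
def S_Sum : Prop := ∃ C : ℕ, 1 ≤ C ∧ ∀ (K L : ℝ) (n : Fin 9 → Fin 2 → ℤ) (GG : Finset (Fin 3 → ℤ)),
  1 ≤ K → 1 ≤ L → Pts L n →
  (∀ g ∈ GG, dq (fun j => (g j : ℚ)) ≠ 0 ∧ ∃ m : Fin 9 → ℤ, Val K L n (fun j => (g j : ℚ)) m) →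
  ∑ g ∈ GG, 1 / √|((dq (fun j => (g j : ℚ)) : ℚ) : ℝ)| ≤ C * L ^ C * K ^ (-(1 / 12 : ℝ))

/-! ## Factorisations -/

/-- greatest common divisor of the entries -/
def ct (u : Mat) : ℕ := Nat.gcd (Nat.gcd (u 0 0).natAbs (u 0 1).natAbs) (Nat.gcd (u 1 0).natAbs (u 1 1).natAbs)

/-- `A` divides all entries of `s` -/
def Dv (A : ℤ) (s : Mat) : Prop := ∀ i j, A ∣ s i j

/-- Hermite matrix -/
def hmt (t : ℕ × ℕ × ℕ) : Mat := !![(t.1 : ℤ), (t.2.1 : ℤ); 0, (t.2.2 : ℤ)]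

open Classical in
/-- the Hermite matrices `t` of determinant `A` with `A ∣ t u` -/
noncomputable def hm (A : ℕ) (u : Mat) : Finset (ℕ × ℕ × ℕ) :=
  ((Finset.range (A + 1)) ×ˢ (Finset.range (A + 1)) ×ˢ (Finset.range (A + 1))).filter
    (fun t => t.1 * t.2.2 = A ∧ t.2.1 < t.2.2 ∧ Dv A (hmt t * u))

/-- **Herm** NUMBER OF LATTICES. Proof. Fix `(α, δ)`, `αδ = A` (at most `A.divisors.card` pairs). `t = (α, β; 0, δ)`. Second row of `t u`: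
`δ u₁ⱼ ≡ 0 mod αδ`, so `u₁ⱼ = α wⱼ`. First row: `α u₀ⱼ + β u₁ⱼ = α (u₀ⱼ + β wⱼ) ≡ 0 mod αδ`, so `δ ∣ u₀ⱼ + β wⱼ` (`j = 0, 1`). Let
`e = gcd(δ, w₀, w₁)`. For two solutions `δ ∣ (β - β') wⱼ`, so `δ/e ∣ β - β'` (as `δ/e, w₀/e, w₁/e` have gcd 1): at most `e` solutions in `[0, δ)`. If there is one then
`e ∣ u₀ⱼ` and `e ∣ u₁ⱼ`, so `e ∣ ct u`, `e ≤ ct u` (`ct u ≠ 0` as `u ≠ 0`). -/
def S_Herm : Prop := ∀ (u : Mat) (A : ℕ), 1 ≤ A → u ≠ 0 → (hm A u).card ≤ A.divisors.card * ct u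

/-- **Hnf** HERMITE NORMAL FORM. Proof. `s = (p, q; r, t)`; Bezout: `γ₁ ∈ SL₂(ℤ)` with `γ₁ (p; r) = (gcd; 0)` (if `p = r = 0` the determinant is `0`);
then `γ₁ s = (α, b; 0, δ)` with `α > 0`, `αδ = det s > 0`, so `δ > 0`; multiply by `(1, -⌊b/δ⌋; 0, 1)`. -/
def S_Hnf : Prop := ∀ s : Mat, 0 < s.det → ∃ (γ : Mat) (t : ℕ × ℕ × ℕ), γ.det = 1 ∧ s = γ * hmt t ∧
  ((t.1 * t.2.2 : ℕ) : ℤ) = s.det ∧ t.2.1 < t.2.2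

/-- **Cls** NUMBER OF LEFT FACTORS OF BOUNDED SIZE. Proof (given `S_Herm`, `S_Hnf`). `s = γ t`, `t ∈ hm A u` (`A ∣ s u = γ t u`, so `A ∣ t u`; `α, β, δ ≤ A`).
If `s, s' ∈ S` have the same `t` then `s' * adj s = A • γ''`, `γ'' = γ' γ⁻¹` integral, with entries at most `2Y²/A`; `s'` is determined by `s` and `γ''`
(`A s' = s' (adj s) s`); the number of integral matrices with entries `≤ 2Y²/A` in absolute value is `≤ (4Y²/A + 1)^4`. -/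
def S_Cls : Prop := ∀ (u : Mat) (A : ℕ) (Y : ℝ) (S : Finset Mat), 1 ≤ A → u ≠ 0 → 0 ≤ Y →
  (∀ s ∈ S, s.det = A ∧ Dv A (s * u) ∧ ∀ i j, |((s i j : ℤ) : ℝ)| ≤ Y) →
  (S.card : ℝ) ≤ (4 * Y ^ 2 / A + 1) ^ 4 * (A.divisors.card * ct u)

/-- **Tau** DIVISOR BOUND. (Classical; if the library has it, cite it: grep `divisors.card` in Lib, e.g. MP_a54f13_nt, CO, TN.) Proof.
`τ(n) = ∏ (e_p + 1)`; for `p^ε ≥ 2`: `e + 1 ≤ 2^e ≤ p^(eε)`; for the finitely many `p < 2^(1/ε)`: `e + 1 ≤ (1 + 1/(ε log 2)) p^(eε)`. -/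
def S_Tau : Prop := ∀ ε : ℝ, 0 < ε → ∃ C : ℝ, 1 ≤ C ∧ ∀ n : ℕ, 1 ≤ n → (n.divisors.card : ℝ) ≤ C * (n : ℝ) ^ ε

/-- **Vec** INTEGRAL VECTORS ON A QUADRIC. Proof (given `S_Tau`). `w = c w'`, `w'` integral, `w'₀² + 4 w'₁ w'₂ = Δ/c² =: Δ' ≠ 0`, `|w' i| ≤ Z/c`, and `Z/c ≥ 1` since `w' ≠ 0`. There are
`≤ 2Z/c + 1 ≤ 3Z/c` values of `w'₀`. Given `w'₀`, `w'₁ w'₂ = N := (Δ' - w'₀²)/4`. If `N ≠ 0`: `w'₁` is one of `≤ 2 τ(|N|)` divisors, `|N| ≤ Z²`: `≤ 2 C Z^(2ε')`.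
If `N = 0` then `w'₀² = Δ'`: at most two `w'₀`, and `w'₁ w'₂ = 0`: at most `2 (2Z/c + 1)` pairs. -/
def S_Vec : Prop := ∀ ε : ℝ, 0 < ε → ∃ C : ℝ, 1 ≤ C ∧ ∀ (Δ : ℤ) (c : ℕ) (Z : ℝ) (S : Finset (Fin 3 → ℤ)),
  Δ ≠ 0 → 1 ≤ c → 1 ≤ Z → (∀ w ∈ S, w 0 ^ 2 + 4 * (w 1 * w 2) = Δ ∧ ∀ i, |((w i : ℤ) : ℝ)| ≤ Z ∧ (c : ℤ) ∣ w i) →
  (S.card : ℝ) ≤ C * (Z / c) * Z ^ ε

/-- the bilinear form of the determinant -/
def bf (A B : Mat) : ℤ := A 0 0 * B 1 1 + A 1 1 * B 0 0 - A 0 1 * B 1 0 - A 1 0 * B 0 1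

/-- the traceless part of an integral matrix: `2 s = tr s + X(uv s)` -/
def uv (s : Mat) : Fin 3 → ℤ := ![s 0 0 - s 1 1, s 0 1, s 1 0]

/-- **Prs** NUMBER OF PAIRS `(r₀, r₁)` WITH GIVEN FORM. Proof (given `S_Cls`, `S_Vec`, `S_Tau`). `u = adj r₀ * r₁`: `tr u = B`, `det u = A D`, so `w = uv u` has `w₀² + 4w₁w₂ = B² - 4AD = Δ ≠ 0`,
and `u` is determined by `w` (`2u₀₀ = B + w₀`, `2u₁₁ = B - w₀`, `u₀₁ = w₁`, `u₁₀ = w₂`); `u ≠ 0` (`Δ ≠ 0`). `r₀ u = A r₁`, so `Dv A (r₀ u)` and `r₁` is determined by `(r₀, u)`. By `S_Cls` the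
number of pairs is `≤ Σ_w (4Y²/A+1)^4 τ(A) ct(u_w)`. `ct(u_w)` divides all `w i`; so `Σ_w ct(u_w) ≤ Σ_c c #{w : c ∣ w}` over the `c ≥ 1` such that some `w` is divisible by `c`: then
`c² ∣ Δ`, so `c ∣ Δ`: at most `τ(|Δ|)` values; by `S_Vec` each term is `≤ C Z^(1+ε)`. `|Δ| ≤ 5Z²`, `A ≤ 2Y²`. -/
def S_Prs : Prop := ∀ ε : ℝ, 0 < ε → ∃ C : ℝ, 1 ≤ C ∧ ∀ (A : ℕ) (B D : ℤ) (Y Z : ℝ) (S : Finset (Mat × Mat)),
  1 ≤ A → B ^ 2 - 4 * A * D ≠ 0 → 1 ≤ Y → 1 ≤ Z →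
  (∀ r ∈ S, r.1.det = A ∧ r.2.det = D ∧ bf r.1 r.2 = B ∧ (∀ i j, |((r.1 i j : ℤ) : ℝ)| ≤ Y) ∧
    ∀ i, |((uv (r.1.adjugate * r.2) i : ℤ) : ℝ)| ≤ Z) →
  (S.card : ℝ) ≤ C * (Y ^ 2 / A + 1) ^ 4 * Z * (Z * Y) ^ ε

end Pool.Agent.HS.E
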