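import Pool.Agent.Lib.MP_a54f13_nt.Hp.Defs
import Pool.Agent.Lib.HS.E.Spec

/-!
# PROJECT HS, part (E), line case: geometry and conclusion

`Fr K L x y r`: the matrix `r` connects the geodesics of `x` and `y` at height `K` up to `L`. `Ln`: pairs of geodesics with
nine square points on a line and a form which is not a square. `S_Line`: their `nu × nu`-measure is at most `C L^C K^(-4-1/24)`
(the level sets of the application have square measure `K^(-4)` up to `L^C`).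
-/

set_option autoImplicit false

namespace Pool.Agent.HS.E

open MeasureTheory
open scoped ENNReal
open Pool.Agent.A54.Dyn (G)
open Pool.Agent.A54.Hp (nu nm Om xi Tb)

noncomputable section

/-- the matrix `r` in the frames of `x` and `y` -/
def fr (x y : G) (r : Mat) : Matrix (Fin 2) (Fin 2) ℝ :=
  ((y⁻¹ : G) : Matrix (Fin 2) (Fin 2) ℝ) * r.map (fun a => ((a : ℤ) : ℝ)) * (x : Matrix (Fin 2) (Fin 2) ℝ)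

/-- `r` connects `x` and `y` at height `K` up to `L` -/
def Fr (K L : ℝ) (x y : G) (r : Mat) : Prop :=
  |fr x y r 0 0| ≤ K * L ∧ |fr x y r 1 1| ≤ K * L ∧ |fr x y r 0 1| ≤ L / K ∧ |fr x y r 1 0| ≤ L / K

/-- the discriminant of `det (a r₀ + b r₁)` -/
def dd (r₀ r₁ : Mat) : ℤ := bf r₀ r₁ ^ 2 - 4 * r₀.det * r₁.det

/-- pairs of geodesics with nine square points on a line, form not a square -/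
def Ln (R K L : ℝ) (n : Fin 9 → Fin 2 → ℤ) : Set (G × G) :=
  {p | p.1 ∈ Om R ∧ p.2 ∈ Om R ∧ ∃ (r₀ r₁ : Mat) (m : Fin 9 → ℤ), Fr K L p.1 p.2 r₀ ∧ Fr K L p.1 p.2 r₁ ∧
    (∀ i, K / L ≤ ((m i : ℤ) : ℝ) ∧ ((m i : ℤ) : ℝ) ≤ K * L ∧ m i ^ 2 = (n i 0 • r₀ + n i 1 • r₁).det) ∧
    dd r₀ r₁ ≠ 0}

/-- **GeoX** FIRST ENDPOINT. Proof. Real matrices: `r_j = y c_j x⁻¹`, `c_j = fr x y r_j`, so `|r_j| ≤ 4R²KL` entrywise. `adj r₀ * r₁ = x (adj c₀ * c₁) x⁻¹`; with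
`c₀ = (d₁, e; e', d₂)`, `c₁ = (D₁, E; E', D₂)`: `adj c₀ * c₁ = (p, q; q', p')`, `p = d₂D₁ - eE'`, `p' = d₁D₂ - e'E`, `q = d₂E - eD₂`, `q' = d₁E' - e'D₁`, `|q|, |q'| ≤ 2L²`. Put
`τ = p - p'`: `dd r₀ r₁ = (tr)² - 4 det = τ² + 4 q q'` (`tr (adj r₀ * r₁) = bf r₀ r₁`), so `|τ² - Δ| ≤ 16L⁴`. With `x = (a,b;c,d)`:
`uv (adj r₀ * r₁) = τ xi x + (2(bdq'-acq), a²q-b²q', d²q'-c²q)`, so `|w i - τ xi x i| ≤ 8R²L²`. `|xi| ≤ 2R²`. If `64L⁴ ≤ |Δ|`: `Δ < 0` would give `τ² < 0`; so `Δ > 0`,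
`(3/4)Δ ≤ τ² ≤ (5/4)Δ`, `|w i| ≤ C√Δ`, and with `s = sign τ`: `| |τ|/√Δ - 1 | ≤ 16L⁴/Δ`, so `|xi x i - s w i/√Δ| ≤ (32R²L⁴/√Δ + 8R²L²)/√Δ`. -/
def S_GeoX : Prop := ∀ R : ℝ, 1 ≤ R → ∃ C : ℝ, 1 ≤ C ∧ ∀ (K L : ℝ) (x y : G) (r₀ r₁ : Mat), 1 ≤ K → 1 ≤ L →
  x ∈ Om R → y ∈ Om R → Fr K L x y r₀ → Fr K L x y r₁ →
  (∀ i j, |((r₀ i j : ℤ) : ℝ)| ≤ C * (K * L)) ∧ (∀ i j, |((r₁ i j : ℤ) : ℝ)| ≤ C * (K * L)) ∧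
  (64 * L ^ 4 ≤ |((dd r₀ r₁ : ℤ) : ℝ)| → 0 < dd r₀ r₁ ∧
    (∀ i, |((uv (r₀.adjugate * r₁) i : ℤ) : ℝ)| ≤ C * √((dd r₀ r₁ : ℤ) : ℝ)) ∧
    ∃ s : ℝ, (s = 1 ∨ s = -1) ∧ ∀ i, |xi x i - s * ((uv (r₀.adjugate * r₁) i : ℤ) : ℝ) / √((dd r₀ r₁ : ℤ) : ℝ)| ≤
      C * L ^ 4 / √((dd r₀ r₁ : ℤ) : ℝ))

/-- **GeoY** SECOND ENDPOINT. Proof. `A = det r₀ ≥ K²/L² > 0`, `z = nm r₀ * x = y k`, `k = c₀/√A` (determinant one), diagonal entries of `k` at most `KL/√A ≤ L²`,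
off-diagonal entries at most `(L/K)/√A ≤ L²/K²`. `X(ξ) = (ξ₀, 2ξ₁; 2ξ₂, -ξ₀)`, `X(xi g) = g diag(1,-1) g⁻¹`; so `X(xi z) - X(xi y) = y (k diag(1,-1) k⁻¹ - diag(1,-1)) y⁻¹` and with
`k = (a,b;c,d)`: `k diag(1,-1) k⁻¹ - diag(1,-1) = (2bc, -2ab; 2cd, -2bc)`, entries at most `2L⁴/K²`. (Or: write the three coordinates of `xi (y k) - xi y` as polynomials.) -/
def S_GeoY : Prop := ∀ R : ℝ, 1 ≤ R → ∃ C : ℝ, 1 ≤ C ∧ ∀ (K L : ℝ) (x y : G) (r₀ : Mat), 1 ≤ K → 1 ≤ L →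
  y ∈ Om R → Fr K L x y r₀ → K ^ 2 / L ^ 2 ≤ ((r₀.det : ℤ) : ℝ) →
  ∀ i, |xi y i - xi (nm r₀ * x) i| ≤ C * L ^ 4 / K ^ 2

/-- **Mes** MEASURE. Proof. The set is measurable (closed: `xi`, left multiplication by a fixed element and `Om R` are continuous/closed). `Measure.prod_apply` (`nu` is σ-finite: `StmtNuL`):
`∫⁻ x, nu {y ∈ Tb R (xi (nm r₀ * x)) η'}` over `x ∈ Tb R ζ η`, each at most `C η'²` by `StmtVol`, and `nu (Tb R ζ η) ≤ C η²`. (`StmtVol`, `StmtNuL`: Hp/SpecM.lean, proved in Hp/Vol.lean, Hp/NuLeft.lean.) -/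
def S_Mes : Prop := ∀ R : ℝ, 1 ≤ R → ∃ C : ℝ, 1 ≤ C ∧ ∀ (r₀ : Mat) (ζ : Fin 3 → ℝ) (η η' : ℝ), 0 < η → 0 < η' →
  (nu.prod nu) {p | p.1 ∈ Tb R ζ η ∧ p.2 ∈ Tb R (xi (nm r₀ * p.1)) η'} ≤ ENNReal.ofReal (C * η ^ 2 * η' ^ 2)

/-- **Line** CONCLUSION. Proof (given `S_Slab`, `S_Sum`, `S_Prs`, `S_GeoX`, `S_GeoY`, `S_Mes`, and `nu (Om R) < ⊤`). `det (a r₀ + b r₁) = a² det r₀ + a b (bf r₀ r₁) + b² det r₁`. So `g = (det r₀, bf r₀ r₁, det r₁)` has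
`Val K L n g m` and `dq g = dd r₀ r₁ ≠ 0`; `det r₀ = m₀² ≥ K²/L²` (`n 0 = (1,0)`).
Case 1: `K³ ≤ C₀ L^C₀`: the measure is at most `nu (Om R)²` and `K^(-4-1/24) ≥ (C₀ L^C₀)^(-2)`. Case 2: `K³ > C₀ L^C₀`: `S_Slab` gives `|dd r₀ r₁| ≥ K³/(C L^C) ≥ 64L⁴`. Let `GG` be the set of the
`g ∈ ℤ³` that occur (entries at most `C(KL)²`: finite), for `g ∈ GG` let `S_g` be the set of the pairs `(r₀, r₁)` with form `g`, entries at most `Y = C K L`, `|uv| ≤ Z = C√Δ`, `Δ = dq g`; by `S_Prs` (`ε = 1/72`, `A = m₀²`,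
`Y²/A + 1 ≤ C L⁴`, `Z Y ≤ C (KL)³`): `#S_g ≤ C L^C √Δ K^(1/24)`. By `S_GeoX`, `S_GeoY` the set `Ln` is contained in the union over `g ∈ GG`, `(r₀, r₁) ∈ S_g`, `s = ±1` of the sets of `S_Mes` with
`ζ = s uv/√Δ`, `η = C L⁴/√Δ`, `η' = C L⁴/K²`: measure at most `C L^16 /(Δ K⁴)`. Sum: `C L^C K^(1/24) K^(-4) Σ_g 1/√Δ ≤ C L^C K^(1/24 - 4 - 1/12)` by `S_Sum`. -/
def S_Line : Prop := ∀ R : ℝ, 1 ≤ R → ∃ C : ℕ, 1 ≤ C ∧ ∀ (K L : ℝ) (n : Fin 9 → Fin 2 → ℤ), 1 ≤ K → 1 ≤ L → Pts L n →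
  (nu.prod nu) (Ln R K L n) ≤ ENNReal.ofReal (C * L ^ C * K ^ (-(97 / 24) : ℝ))

end

end Pool.Agent.HS.E
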